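import Pool.Agent.N662.SD.Stm
import Pool.Agent.TH967.DP.AC2

/-!
# SD/AC: anti-concentration with weights and a reference function

Project SD (helper662); this file by helper692, after `Pool.Agent.TH967.DP.AC2`.
-/

set_option autoImplicit false

open MeasureTheory ProbabilityTheory

namespace Pool.Agent.N692.SD.AC

open TH967.DP (clip clip_mono clip_nonneg clip_le key_ineq score measurable_score integrable_bdd
  abs_score_le one_site integral_score integral_score_sq mp_update integral_resample abs_clip_le)

variable {ι W : Type} [Fintype ι] [DecidableEq ι] [Fintype W]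

/-- partition function -/
noncomputable def ZZ (β : ℝ) (c : W → ℝ) (vis : W → Finset ι) (η : ι → ℝ) : ℝ :=
  ∑ w, c w * Real.exp (β * ∑ s ∈ vis w, η s)

/-- its logarithm -/
noncomputable def XX (β : ℝ) (c : W → ℝ) (vis : W → Finset ι) (η : ι → ℝ) : ℝ :=
  Real.log (ZZ β c vis η)

/-- visit probability -/
noncomputable def occ (β : ℝ) (c : W → ℝ) (vis : W → Finset ι) (s : ι) (η : ι → ℝ) : ℝ :=
  (∑ w, if s ∈ vis w then c w * Real.exp (β * ∑ t ∈ vis w, η t) else 0) / ZZ β c vis η

lemma ZZ_pos [Nonempty W] (β : ℝ) {c : W → ℝ} (hc : ∀ w, 0 < c w) (vis : W → Finset ι)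
    (η : ι → ℝ) : 0 < ZZ β c vis η := by
  unfold ZZ
  exact Finset.sum_pos (fun w _ => mul_pos (hc w) (Real.exp_pos _)) Finset.univ_nonempty

lemma measurable_ZZ (β : ℝ) (c : W → ℝ) (vis : W → Finset ι) : Measurable (ZZ β c vis) := by
  unfold ZZ
  fun_prop

lemma measurable_XX (β : ℝ) (c : W → ℝ) (vis : W → Finset ι) : Measurable (XX β c vis) := by
  unfold XX
  exact Real.measurable_log.comp (measurable_ZZ β c vis)

lemma measurable_occ (β : ℝ) (c : W → ℝ) (vis : W → Finset ι) (s : ι) :
    Measurable (occ β c vis s) := by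
  unfold occ
  apply Measurable.div _ (measurable_ZZ β c vis)
  apply Finset.measurable_sum
  intro w _
  split_ifs
  · fun_prop
  · exact measurable_const

lemma occ_nonneg [Nonempty W] (β : ℝ) {c : W → ℝ} (hc : ∀ w, 0 < c w) (vis : W → Finset ι)
    (s : ι) (η : ι → ℝ) : 0 ≤ occ β c vis s η := by
  unfold occ
  apply div_nonneg _ (ZZ_pos β hc vis η).le
  apply Finset.sum_nonneg
  intro w _
  split_ifs
  · exact (mul_pos (hc w) (Real.exp_pos _)).le
  · exact le_rfl

lemma occ_le_one [Nonempty W] (β : ℝ) {c : W → ℝ} (hc : ∀ w, 0 < c w) (vis : W → Finset ι)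
    (s : ι) (η : ι → ℝ) : occ β c vis s η ≤ 1 := by
  unfold occ
  rw [div_le_one (ZZ_pos β hc vis η)]
  unfold ZZ
  apply Finset.sum_le_sum
  intro w _
  split_ifs
  · exact le_rfl
  · exact (mul_pos (hc w) (Real.exp_pos _)).le

lemma sum_occ [Nonempty W] (β : ℝ) {c : W → ℝ} (hc : ∀ w, 0 < c w) (vis : W → Finset ι)
    (T : Finset ι) {m : ℕ} (hm : ∀ w, (vis w ∩ T).card = m)
    (η : ι → ℝ) : ∑ s ∈ T, occ β c vis s η = m := by
  unfold occ
  rw [← Finset.sum_div, Finset.sum_comm, div_eq_iff (ZZ_pos β hc vis η).ne']
  unfold ZZ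
  rw [Finset.mul_sum]
  apply Finset.sum_congr rfl
  intro w _
  rw [Finset.sum_ite_mem, Finset.sum_const, Finset.inter_comm, hm w, nsmul_eq_mul]

/-- part not visiting `s` -/
noncomputable def partA (β : ℝ) (c : W → ℝ) (vis : W → Finset ι) (s : ι) (η : ι → ℝ) : ℝ :=
  ∑ w, if s ∈ vis w then 0 else c w * Real.exp (β * ∑ t ∈ vis w, η t)

/-- part visiting `s`, without the value at `s` -/
noncomputable def partB (β : ℝ) (c : W → ℝ) (vis : W → Finset ι) (s : ι) (η : ι → ℝ) : ℝ :=
  ∑ w, if s ∈ vis w then c w * Real.exp (β * ∑ t ∈ vis w \ {s}, η t) else 0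

lemma partA_nonneg (β : ℝ) {c : W → ℝ} (hc : ∀ w, 0 < c w) (vis : W → Finset ι) (s : ι)
    (η : ι → ℝ) : 0 ≤ partA β c vis s η := by
  unfold partA
  apply Finset.sum_nonneg
  intro w _
  split_ifs
  · exact le_rfl
  · exact (mul_pos (hc w) (Real.exp_pos _)).le

lemma partB_nonneg (β : ℝ) {c : W → ℝ} (hc : ∀ w, 0 < c w) (vis : W → Finset ι) (s : ι)
    (η : ι → ℝ) : 0 ≤ partB β c vis s η := by
  unfold partB
  apply Finset.sum_nonneg
  intro w _
  split_ifs
  · exact (mul_pos (hc w) (Real.exp_pos _)).le
  · exact le_rfl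

lemma ZZ_update (β : ℝ) (c : W → ℝ) (vis : W → Finset ι) (s : ι) (η : ι → ℝ) (u : ℝ) :
    ZZ β c vis (Function.update η s u) =
      partA β c vis s η + partB β c vis s η * Real.exp (β * u) := by
  unfold ZZ partA partB
  rw [Finset.sum_mul, ← Finset.sum_add_distrib]
  apply Finset.sum_congr rfl
  intro w _
  split_ifs with h
  · rw [Finset.sum_update_of_mem h, zero_add, mul_assoc, ← Real.exp_add]
    congr 2; ring
  · rw [Finset.sum_update_of_notMem h]; simp

lemma occ_update (β : ℝ) (c : W → ℝ) (vis : W → Finset ι) (s : ι) (η : ι → ℝ) (u : ℝ) :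
    occ β c vis s (Function.update η s u) = partB β c vis s η * Real.exp (β * u) /
      (partA β c vis s η + partB β c vis s η * Real.exp (β * u)) := by
  unfold occ
  rw [ZZ_update]
  congr 1
  unfold partB
  rw [Finset.sum_mul]
  apply Finset.sum_congr rfl
  intro w _
  split_ifs with h
  · rw [Finset.sum_update_of_mem h, mul_assoc, ← Real.exp_add]
    congr 2; ring
  · simp

/-- the event -/
def Ev (β : ℝ) (c : W → ℝ) (vis : W → Finset ι) (Y : (ι → ℝ) → ℝ) (L : ℝ) : Set (ι → ℝ) :=
  {η | Y η ≤ XX β c vis η ∧ XX β c vis η ≤ Y η + L}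

lemma measurableSet_Ev (β : ℝ) (c : W → ℝ) (vis : W → Finset ι) {Y : (ι → ℝ) → ℝ}
    (hY : Measurable Y) (L : ℝ) : MeasurableSet (Ev β c vis Y L) :=
  (measurableSet_le hY (measurable_XX β c vis)).inter
    (measurableSet_le (measurable_XX β c vis) (hY.add_const L))

lemma measurable_clipY (β : ℝ) (c : W → ℝ) (vis : W → Finset ι) {Y : (ι → ℝ) → ℝ}
    (hY : Measurable Y) (L : ℝ) : Measurable fun η => clip (Y η) L (XX β c vis η) := by
  unfold clip
  have := measurable_XX β c vis
  fun_prop

/-- the integrated one-site inequality -/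
lemma site_ineq [Nonempty W] (μ : Measure ℝ) [IsProbabilityMeasure μ] {a b : ℝ} (hab : a < b)
    (hp : 0 < μ.real (Set.Ici b)) (hm : 0 < μ.real (Set.Iic a)) {β : ℝ} (hβ : 0 < β)
    {c : W → ℝ} (hc : ∀ w, 0 < c w) (vis : W → Finset ι) (T : Finset ι) {s : ι} (hs : s ∈ T)
    {Y : (ι → ℝ) → ℝ} (hY : Measurable Y)
    (hYT : ∀ η η' : ι → ℝ, (∀ s, s ∉ T → η s = η' s) → Y η = Y η') {L : ℝ} (hL : 0 ≤ L) :
    ∫ η, (1 - Real.exp (-(β * (b - a)))) * occ β c vis s η *
        (Ev β c vis Y L).indicator (fun _ => (1 : ℝ)) η ∂(Measure.pi fun _ : ι => μ) ≤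
      ∫ η, clip (Y η) L (XX β c vis η) * score μ a b (η s) ∂(Measure.pi fun _ : ι => μ) := by
  set q := 1 - Real.exp (-(β * (b - a))) with hq
  have hq1 : q ≤ 1 := by rw [hq]; linarith [Real.exp_pos (-(β * (b - a)))]
  have hq0 : 0 ≤ q := by
    rw [hq]
    have : Real.exp (-(β * (b - a))) ≤ 1 := Real.exp_le_one_iff.2 (by nlinarith)
    linarith
  have hmS : MeasurableSet (Ev β c vis Y L) := measurableSet_Ev β c vis hY L
  have ind01 : ∀ η, 0 ≤ (Ev β c vis Y L).indicator (fun _ => (1 : ℝ)) η ∧
      (Ev β c vis Y L).indicator (fun _ => (1 : ℝ)) η ≤ 1 := by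
    intro η
    by_cases h : η ∈ Ev β c vis Y L
    · rw [Set.indicator_of_mem h]; simp
    · rw [Set.indicator_of_notMem h]; simp
  have hYu : ∀ (η : ι → ℝ) (u : ℝ), Y (Function.update η s u) = Y η := by
    intro η u
    apply hYT
    intro s' hs'
    rw [Function.update_of_ne]
    rintro rfl
    exact hs' hs
  have hG1m : Measurable (fun η => q * occ β c vis s η *
        (Ev β c vis Y L).indicator (fun _ => (1 : ℝ)) η) :=
    ((measurable_occ β c vis s).const_mul q).mul (measurable_const.indicator hmS)
  have hG1b : ∀ η, |q * occ β c vis s η *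
        (Ev β c vis Y L).indicator (fun _ => (1 : ℝ)) η| ≤ 1 := by
    intro η
    have h1 := occ_nonneg β hc vis s η
    have h2 := occ_le_one β hc vis s η
    obtain ⟨h3, h4⟩ := ind01 η
    rw [abs_of_nonneg (by positivity)]
    calc q * occ β c vis s η * _ ≤ 1 * 1 * 1 := by gcongr
      _ = 1 := by norm_num
  have hG2m : Measurable (fun η : ι → ℝ => clip (Y η) L (XX β c vis η) * score μ a b (η s)) :=
    (measurable_clipY β c vis hY L).mul
      ((measurable_score μ a b).comp (measurable_pi_apply s))
  have hG2b : ∀ η : ι → ℝ, |clip (Y η) L (XX β c vis η) * score μ a b (η s)| ≤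
      (L + 2) * (1 / μ.real (Set.Ici b) + 1 / μ.real (Set.Iic a)) := by
    intro η
    rw [abs_mul]
    exact mul_le_mul (abs_clip_le hL _) (abs_score_le μ a b _) (abs_nonneg _) (by linarith)
  rw [integral_resample μ s hG1m hG1b, integral_resample μ s hG2m hG2b]
  have h1 := mp_update (ι := ι) μ s
  have ip1 : Integrable (fun p : (ι → ℝ) × ℝ => (fun η => q * occ β c vis s η *
        (Ev β c vis Y L).indicator (fun _ => (1 : ℝ)) η)
          (Function.update p.1 s p.2)) ((Measure.pi fun _ : ι => μ).prod μ) :=
    integrable_bdd (hG1m.comp h1.measurable) (fun x => hG1b _)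
  have ip2 : Integrable (fun p : (ι → ℝ) × ℝ =>
      (fun η : ι → ℝ => clip (Y η) L (XX β c vis η) * score μ a b (η s))
          (Function.update p.1 s p.2)) ((Measure.pi fun _ : ι => μ).prod μ) :=
    integrable_bdd (hG2m.comp h1.measurable) (fun x => hG2b _)
  apply integral_mono ip1.integral_prod_left ip2.integral_prod_left
  intro η
  simp only [Function.update_self]
  have mu : Measurable (fun u : ℝ => Function.update η s u) := by
    rw [measurable_pi_iff]
    intro i
    by_cases h : i = s
    · subst h
      simp only [Function.update_self]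
      exact measurable_id
    · simp only [Function.update_of_ne h]
      exact measurable_const
  apply one_site μ hab hp hm (F := fun u => clip (Y (Function.update η s u)) L
      (XX β c vis (Function.update η s u)))
    (h := fun u => q * occ β c vis s (Function.update η s u) *
        (Ev β c vis Y L).indicator (fun _ => (1 : ℝ)) (Function.update η s u))
    ((measurable_clipY β c vis hY L).comp mu)
    (C := L + 2) (fun x => abs_clip_le hL _) (hG1m.comp mu) (C' := 1) (fun x => hG1b _)
  intro v w u hv hu hvw hwu
  have zpos : 0 < partA β c vis s η + partB β c vis s η * Real.exp (β * v) := by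
    rw [← ZZ_update]; exact ZZ_pos _ hc _ _
  have mono : Real.log (partA β c vis s η + partB β c vis s η * Real.exp (β * v)) ≤
      Real.log (partA β c vis s η + partB β c vis s η * Real.exp (β * u)) := by
    apply Real.log_le_log zpos
    have : Real.exp (β * v) ≤ Real.exp (β * u) := Real.exp_le_exp.2 (by nlinarith)
    have := mul_le_mul_of_nonneg_left this (partB_nonneg β hc vis s η)
    linarith
  show _ ≤ clip (Y (Function.update η s u)) L (XX β c vis (Function.update η s u)) -
    clip (Y (Function.update η s v)) L (XX β c vis (Function.update η s v))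
  rw [hYu, hYu]
  by_cases hin : Function.update η s w ∈ Ev β c vis Y L
  · rw [Set.indicator_of_mem hin, mul_one]
    rw [occ_update]
    obtain ⟨hin1, hin2⟩ := hin
    rw [hYu] at hin1 hin2
    unfold XX at hin1 hin2 ⊢
    rw [ZZ_update] at hin1 hin2
    rw [ZZ_update, ZZ_update]
    apply key_ineq (partA_nonneg _ hc _ _ _) (partB_nonneg _ hc _ _ _) (Real.exp_pos _) _ _ zpos _
      hin1 hin2
    · exact Real.exp_le_exp.2 (by nlinarith)
    · exact Real.exp_le_exp.2 (by nlinarith)
    · rw [hq, ← Real.exp_sub]
      have : Real.exp (β * v - β * u) ≤ Real.exp (-(β * (b - a))) :=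
        Real.exp_le_exp.2 (by nlinarith)
      linarith
  · rw [Set.indicator_of_notMem hin, mul_zero]
    have := clip_mono (Y η) L mono
    unfold XX
    rw [ZZ_update, ZZ_update]
    linarith

/-- the second moment of the sum of the scores -/
lemma score_sum_sq (μ : Measure ℝ) [IsProbabilityMeasure μ] {a b : ℝ} (hab : a < b)
    (hp : 0 < μ.real (Set.Ici b)) (hm : 0 < μ.real (Set.Iic a)) (T : Finset ι) :
    ∫ η, (∑ s ∈ T, score μ a b (η s)) ^ 2 ∂(Measure.pi fun _ : ι => μ) =
      T.card * (1 / μ.real (Set.Ici b) + 1 / μ.real (Set.Iic a)) := by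
  have hmem : MemLp (score μ a b) 2 μ := by
    apply MemLp.of_bound (measurable_score μ a b).aestronglyMeasurable
      (1 / μ.real (Set.Ici b) + 1 / μ.real (Set.Iic a))
    exact Filter.Eventually.of_forall (fun x => abs_score_le μ a b x)
  have hmem0 : MemLp (fun _ : ℝ => (0 : ℝ)) 2 μ := MemLp.zero'
  have hvar := variance_sum_pi (μ := fun _ : ι => μ)
    (X := fun s : ι => if s ∈ T then score μ a b else fun _ => (0 : ℝ))
    (fun s => by
      by_cases h : s ∈ T
      · rw [if_pos h]; exact hmem
      · rw [if_neg h]; exact hmem0)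
  have hint0 : ∀ s : ι, Integrable (fun η : ι → ℝ => score μ a b (η s))
      (Measure.pi fun _ : ι => μ) := by
    intro s
    exact integrable_bdd ((measurable_score μ a b).comp (measurable_pi_apply s))
      (fun η => abs_score_le μ a b _)
  have hmean : ∀ s : ι, ∫ η : ι → ℝ, score μ a b (η s) ∂(Measure.pi fun _ : ι => μ) = 0 := by
    intro s
    have h := (measurePreserving_eval (fun _ : ι => μ) s)
    have h2 := integral_map (μ := Measure.pi fun _ : ι => μ) (φ := Function.eval s)
      h.measurable.aemeasurable (f := score μ a b)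
      (measurable_score μ a b).aestronglyMeasurable
    rw [h.map_eq, integral_score μ hp hm] at h2
    exact h2.symm
  have hfun : (∑ i : ι, fun ω : ι → ℝ =>
      (if i ∈ T then score μ a b else fun _ => (0 : ℝ)) (ω i)) =
      fun η => ∑ s ∈ T, score μ a b (η s) := by
    ext η
    rw [Finset.sum_apply, ← Finset.sum_filter_add_sum_filter_not Finset.univ (fun s => s ∈ T)]
    have e1 : ∑ s ∈ Finset.univ.filter (fun s => ¬ s ∈ T),
        (if s ∈ T then score μ a b else fun _ => (0 : ℝ)) (η s) = 0 := by
      apply Finset.sum_eq_zero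
      intro s hs
      rw [if_neg (Finset.mem_filter.1 hs).2]
    have e2 : Finset.univ.filter (fun s => s ∈ T) = T := by
      ext s
      simp
    rw [e1, add_zero, e2]
    apply Finset.sum_congr rfl
    intro s hs
    rw [if_pos hs]
  have hsum0 : ∫ η, (∑ s ∈ T, score μ a b (η s)) ∂(Measure.pi fun _ : ι => μ) = 0 := by
    rw [integral_finsetSum _ (fun s _ => hint0 s)]
    simp [hmean]
  have hmeasG : Measurable (fun η : ι → ℝ => ∑ s ∈ T, score μ a b (η s)) := by
    apply Finset.measurable_sum
    intro s _
    exact (measurable_score μ a b).comp (measurable_pi_apply s)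
  rw [hfun, variance_of_integral_eq_zero hmeasG.aemeasurable hsum0] at hvar
  rw [hvar]
  have hv : ∀ s : ι, Var[if s ∈ T then score μ a b else fun _ => (0 : ℝ); μ] =
      if s ∈ T then (1 / μ.real (Set.Ici b) + 1 / μ.real (Set.Iic a)) else 0 := by
    intro s
    by_cases h : s ∈ T
    · rw [if_pos h, if_pos h, variance_of_integral_eq_zero (measurable_score μ a b).aemeasurable
            (integral_score μ hp hm), integral_score_sq μ hab hp hm]
    · rw [if_neg h, if_neg h]
      exact variance_zero μ
  simp_rw [hv]
  rw [Finset.sum_ite_mem, Finset.univ_inter, Finset.sum_const, nsmul_eq_mul]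

end Pool.Agent.N692.SD.AC

namespace Pool.Agent.N692.SD.AC

open TH967.DP (clip clip_mono clip_nonneg clip_le key_ineq score measurable_score integrable_bdd
  abs_score_le one_site integral_score integral_score_sq mp_update integral_resample abs_clip_le)

/-- the anti-concentration bound -/
theorem main : Pool.Agent.N662.SD.S_AC := by
  intro ι W _ _ _ _ μ _ a b hab hp hm β hβ T c hc vis m hcard Y hYm hYT L hL
  set q := 1 - Real.exp (-(β * (b - a))) with hq
  set π := (Measure.pi fun _ : ι => μ) with hπ
  set K := 1 / μ.real (Set.Ici b) + 1 / μ.real (Set.Iic a) with hK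
  have hKpos : 0 < K := by positivity
  rcases Finset.eq_empty_or_nonempty T with hT | hT
  · have hm0 : m = 0 := by
      obtain ⟨w⟩ := (inferInstance : Nonempty W)
      rw [← hcard w, hT, Finset.inter_empty, Finset.card_empty]
    rw [hm0, hT]
    simp
  have hmS : MeasurableSet (Ev β c vis Y L) := measurableSet_Ev β c vis hYm L
  have hEv : {η : ι → ℝ | Y η ≤ Real.log (∑ w, c w * Real.exp (β * ∑ s ∈ vis w, η s)) ∧
      Real.log (∑ w, c w * Real.exp (β * ∑ s ∈ vis w, η s)) ≤ Y η + L} = Ev β c vis Y L := rfl
  rw [hEv]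
  -- left side as a sum
  have hint1 : ∀ s, Integrable (fun η => q * occ β c vis s η *
        (Ev β c vis Y L).indicator (fun _ => (1 : ℝ)) η) π := by
    intro s
    apply integrable_bdd (C := |q| * 1 * 1)
      (((measurable_occ β c vis s).const_mul q).mul (measurable_const.indicator hmS))
    intro η
    simp only [Pi.mul_apply]
    rw [abs_mul, abs_mul]
    have h1 : |occ β c vis s η| ≤ 1 := by
      rw [abs_of_nonneg (occ_nonneg β hc vis s η)]; exact occ_le_one β hc vis s η
    have h2 : |(Ev β c vis Y L).indicator (fun _ => (1 : ℝ)) η| ≤ 1 := by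
      by_cases h : η ∈ Ev β c vis Y L
      · rw [Set.indicator_of_mem h]; simp
      · rw [Set.indicator_of_notMem h]; simp
    gcongr
  have hint2 : ∀ s, Integrable (fun η : ι → ℝ => clip (Y η) L (XX β c vis η) *
      score μ a b (η s)) π := by
    intro s
    apply integrable_bdd (C := (L + 2) * K) ((measurable_clipY β c vis hYm L).mul
      ((measurable_score μ a b).comp (measurable_pi_apply s)))
    intro η
    simp only [Pi.mul_apply, Function.comp]
    rw [abs_mul]
    exact mul_le_mul (abs_clip_le hL _) (abs_score_le μ a b _) (abs_nonneg _) (by linarith)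
  have lhs : m * q * π.real (Ev β c vis Y L) =
      ∑ s ∈ T, ∫ η, q * occ β c vis s η *
        (Ev β c vis Y L).indicator (fun _ => (1 : ℝ)) η ∂π := by
    rw [← integral_finsetSum _ (fun s _ => hint1 s)]
    have : ∀ η, ∑ s ∈ T, q * occ β c vis s η *
        (Ev β c vis Y L).indicator (fun _ => (1 : ℝ)) η =
        m * q * (Ev β c vis Y L).indicator (fun _ => (1 : ℝ)) η := by
      intro η
      rw [← Finset.sum_mul, ← Finset.mul_sum, sum_occ β hc vis T hcard]
      ring
    simp_rw [this]
    rw [integral_const_mul, integral_indicator hmS]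
    simp
  rw [lhs]
  calc ∑ s ∈ T, ∫ η, q * occ β c vis s η *
        (Ev β c vis Y L).indicator (fun _ => (1 : ℝ)) η ∂π
      ≤ ∑ s ∈ T, ∫ η, clip (Y η) L (XX β c vis η) * score μ a b (η s) ∂π :=
        Finset.sum_le_sum (fun s hs => site_ineq μ hab hp hm hβ hc vis T hs hYm hYT hL)
    _ = ∫ η, clip (Y η) L (XX β c vis η) * (∑ s ∈ T, score μ a b (η s)) ∂π := by
        rw [← integral_finsetSum _ (fun s _ => hint2 s)]
        simp_rw [Finset.mul_sum]
    _ ≤ (L + 2) * Real.sqrt (T.card * K) := by
        set t := Real.sqrt (T.card * K) with ht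
        have hcpos : (0 : ℝ) < T.card := by exact_mod_cast hT.card_pos
        have htpos : 0 < t := Real.sqrt_pos.2 (by positivity)
        have ht2 : t ^ 2 = T.card * K := Real.sq_sqrt (by positivity)
        have hmeasG : Measurable (fun η : ι → ℝ => ∑ s ∈ T, score μ a b (η s)) := by
          apply Finset.measurable_sum
          intro s _
          exact (measurable_score μ a b).comp (measurable_pi_apply s)
        have hE2 : ∫ η, (∑ s ∈ T, score μ a b (η s)) ^ 2 ∂π = t ^ 2 := by
          rw [ht2]
          exact score_sum_sq μ hab hp hm T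
        have hGb : ∀ η : ι → ℝ, |∑ s ∈ T, score μ a b (η s)| ≤ T.card * K := by
          intro η
          refine (Finset.abs_sum_le_sum_abs _ _).trans ?_
          refine (Finset.sum_le_sum (fun s _ => abs_score_le μ a b (η s))).trans ?_
          rw [Finset.sum_const, nsmul_eq_mul]
        have hintG2 : Integrable (fun η : ι → ℝ => (∑ s ∈ T, score μ a b (η s)) ^ 2) π := by
          apply integrable_bdd (C := (T.card * K) ^ 2) (hmeasG.pow_const 2)
          intro η
          rw [abs_pow]
          exact pow_le_pow_left₀ (abs_nonneg _) (hGb η) 2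
        have hintl : Integrable (fun η : ι → ℝ => clip (Y η) L (XX β c vis η) *
            (∑ s ∈ T, score μ a b (η s))) π := by
          apply integrable_bdd (C := (L + 2) * (T.card * K))
            ((measurable_clipY β c vis hYm L).mul hmeasG)
          intro η
          simp only [Pi.mul_apply]
          rw [abs_mul]
          exact mul_le_mul (abs_clip_le hL _) (hGb η) (abs_nonneg _) (by linarith)
        calc ∫ η, clip (Y η) L (XX β c vis η) * (∑ s ∈ T, score μ a b (η s)) ∂π
            ≤ ∫ η, (L + 2) * (((∑ s ∈ T, score μ a b (η s)) ^ 2 / t + t) / 2) ∂π := by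
              apply integral_mono hintl
              · exact (((hintG2.div_const _).add (integrable_const _)).div_const _).const_mul _
              · intro η
                simp only
                set G := ∑ s ∈ T, score μ a b (η s) with hGdef
                have h1 : |G| ≤ (G ^ 2 / t + t) / 2 := by
                  rw [le_div_iff₀ (by norm_num : (0:ℝ) < 2), ← sub_nonneg]
                  have : G ^ 2 / t + t - |G| * 2 = (|G| - t) ^ 2 / t := by
                    rw [← sq_abs G]
                    field_simp
                    ring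
                  rw [this]
                  positivity
                calc clip (Y η) L (XX β c vis η) * G ≤ |clip (Y η) L (XX β c vis η) * G| :=
                      le_abs_self _
                  _ = |clip (Y η) L (XX β c vis η)| * |G| := abs_mul _ _
                  _ ≤ (L + 2) * ((G ^ 2 / t + t) / 2) :=
                    mul_le_mul (abs_clip_le hL _) h1 (abs_nonneg _) (by linarith)
          _ = (L + 2) * t := by
              rw [integral_const_mul, integral_div, integral_add (hintG2.div_const _)
                (integrable_const _), integral_div, hE2]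
              simp only [integral_const, probReal_univ, one_smul]
              field_simp
              ring

end Pool.Agent.N692.SD.AC
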